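import Mathlib
import Pool.Agent.H14Belt.Main

set_option autoImplicit false
set_option linter.unusedSectionVars false

/-!
# EH56/Defs: definitions for the even Hadwiger invariants (MP_29fbf2_co)

Plan.  `P` compact convex with interior, arbitrary tiling by translates of `P` and `-P`.  For an
orthonormal `k`-frame `u`, `k` even: the sum over `s : Fin k → ℤˣ` of `(∏ s i) μ_(d-k)(iface P (s_i u_i))` is zero.

Local part (`Lex`, `LamE`, `Sec`, `Loc`): for a local tiling of `ℝ^k = (Fin k → ℝ)` by closed convex sets at `0` the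
sum of `lam k (K i)` is zero for `k ≥ 1`.
-/

namespace Pool.EH56

open Set Filter Topology MeasureTheory
open scoped RealInnerProductSpace ENNReal
open Pool.Agent.H14Belt (face)

/-- lexicographic comparison: `a = 0` or the first nonzero coordinate of `a` is negative -/
def LexLE : (k : ℕ) → (Fin k → ℝ) → Prop
  | 0, _ => True
  | k + 1, a => a 0 < 0 ∨ (a 0 = 0 ∧ LexLE k (fun i => a i.succ))

/-- the real number `1` or `-1` -/
def sg (s : ℤˣ) : ℝ := ((s : ℤ) : ℝ)

/-- all points of `K` are lexicographically at most `0`, after the change of signs `s` -/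
def LexK (k : ℕ) (s : Fin k → ℤˣ) (K : Set (Fin k → ℝ)) : Prop :=
  ∀ y ∈ K, LexLE k (fun i => sg (s i) * y i)

/-- the section of `K` with the hyperplane `y 0 = 0` -/
def sec {k : ℕ} (K : Set (Fin (k + 1) → ℝ)) : Set (Fin k → ℝ) := {z | (Fin.cons 0 z : Fin (k + 1) → ℝ) ∈ K}

open Classical in
/-- the local functional -/
noncomputable def lam : (k : ℕ) → Set (Fin k → ℝ) → ℤ
  | 0, _ => 1
  | k + 1, K => ((if ∀ y ∈ K, y 0 ≤ 0 then 1 else 0) - (if ∀ y ∈ K, 0 ≤ y 0 then 1 else 0)) * lam k (sec K)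

/-- a local tiling of `ℝ^k` at `0` -/
structure LocT {ι : Type*} {k : ℕ} (s : Finset ι) (K : ι → Set (Fin k → ℝ)) : Prop where
  conv : ∀ i ∈ s, Convex ℝ (K i)
  closed : ∀ i ∈ s, IsClosed (K i)
  zero : ∀ i ∈ s, (0 : Fin k → ℝ) ∈ K i
  int_ne : ∀ i ∈ s, (interior (K i)).Nonempty
  disj : ∀ i ∈ s, ∀ j ∈ s, i ≠ j → Disjoint (interior (K i)) (interior (K j))
  cover : (⋃ i ∈ s, K i) ∈ 𝓝 0

variable {E : Type*} [NormedAddCommGroup E] [InnerProductSpace ℝ E]

/-- the iterated face of `P` in the directions `w 0`, `w 1`, ... -/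
def iface : (k : ℕ) → Set E → (Fin k → E) → Set E
  | 0, P, _ => P
  | k + 1, P, w => iface k (face P (w 0)) (fun i => w i.succ)

/-- the directions `s i • u i` -/
def sdir {k : ℕ} (u : Fin k → E) (s : Fin k → ℤˣ) : Fin k → E := fun i => sg (s i) • u i

/-- the slice of `T` at `x` in the directions `u` -/
def sliceK {k : ℕ} (u : Fin k → E) (T : Set E) (x : E) : Set (Fin k → ℝ) := {y | x + ∑ i, y i • u i ∈ T}

/-- the orthogonal complement of the frame -/
noncomputable def perpK {k : ℕ} (u : Fin k → E) : Submodule ℝ E := (Submodule.span ℝ (range u))ᗮ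

/-- `T` contains a neighbourhood of `x` in the flat `x + S` -/
def GenS (S : Submodule ℝ E) (T : Set E) (x : E) : Prop := ∀ᶠ l : S in 𝓝 0, x + (l : E) ∈ T

/-- the flat through `x₀` with direction `S` -/
def flatS (S : Submodule ℝ E) (x₀ : E) : Set E := {x | x - x₀ ∈ S}

theorem sg_cases (s : ℤˣ) : sg s = 1 ∨ sg s = -1 := by
  rcases Int.units_eq_one_or s with rfl | rfl
  · left; simp [sg]
  · right; simp [sg]

theorem sg_mul_self (s : ℤˣ) : sg s * sg s = 1 := by
  rcases sg_cases s with h | h <;> rw [h] <;> norm_num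

theorem sg_one : sg 1 = 1 := by simp [sg]
theorem sg_neg (s : ℤˣ) : sg (-s) = -sg s := by simp [sg]

theorem mem_perpK {k : ℕ} {u : Fin k → E} {l : E} : l ∈ perpK u ↔ ∀ i, ⟪u i, l⟫ = 0 := by
  unfold perpK
  rw [Submodule.mem_orthogonal]
  constructor
  · intro h i
    exact h (u i) (Submodule.subset_span ⟨i, rfl⟩)
  · intro h w hw
    induction hw using Submodule.span_induction with
    | mem x hx => obtain ⟨i, rfl⟩ := hx; exact h i
    | zero => simp
    | add x y _ _ hx hy => rw [inner_add_left, hx, hy, add_zero]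
    | smul a x _ hx => rw [inner_smul_left, hx, mul_zero]

end Pool.EH56
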