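import Pool.Agent.EH56.Defs

set_option autoImplicit false
set_option linter.unusedSectionVars false

/-!
# EH56/Fam: the counting argument for finite families of faces

`main_fam` is `BoundedTiling.main` (H14Belt/Global) for a general subspace and finite families.
-/

open Set Filter Topology MeasureTheory Module Metric
open scoped RealInnerProductSpace ENNReal

namespace Pool.EH56

open Pool.Agent.H14Belt (BoundedTiling limit_arg)

section sum

open Classical in
lemma fam_sum_le {α ι κ : Type*} [MeasurableSpace α] {ν : Measure α} {I : Finset ι} {A B : Finset κ}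
    {F : κ → ι → Set α} (hF : ∀ j i, MeasurableSet (F j i))
    (h : ∀ᵐ x ∂ν, ∑ j ∈ A, (I.filter fun i => x ∈ F j i).card ≤
      ∑ j ∈ B, (I.filter fun i => x ∈ F j i).card) :
    ∑ j ∈ A, ∑ i ∈ I, ν (F j i) ≤ ∑ j ∈ B, ∑ i ∈ I, ν (F j i) := by
  have hcard : ∀ j, (fun x => ((I.filter fun i => x ∈ F j i).card : ℝ≥0∞)) =
      fun x => ∑ i ∈ I, (F j i).indicator (fun _ => (1 : ℝ≥0∞)) x := by
    intro j
    funext x
    rw [Finset.card_filter, Nat.cast_sum]
    apply Finset.sum_congr rfl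
    intro i _
    by_cases hx : x ∈ F j i <;> simp [hx]
  have hmeas : ∀ j, Measurable (fun x => ((I.filter fun i => x ∈ F j i).card : ℝ≥0∞)) := by
    intro j
    rw [hcard j]
    exact Finset.measurable_fun_sum _ (fun i _ => measurable_const.indicator (hF j i))
  have key : ∀ C : Finset κ, ∑ j ∈ C, ∑ i ∈ I, ν (F j i) =
      ∫⁻ x, ((∑ j ∈ C, (I.filter fun i => x ∈ F j i).card : ℕ) : ℝ≥0∞) ∂ν := by
    intro C
    simp_rw [Nat.cast_sum]
    rw [lintegral_finsetSum' _ (fun j _ => (hmeas j).aemeasurable)]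
    apply Finset.sum_congr rfl
    intro j _
    rw [hcard j, lintegral_finsetSum' _ (fun i _ => (aemeasurable_const.indicator (hF j i)))]
    apply Finset.sum_congr rfl
    intro i _
    rw [lintegral_indicator (hF j i)]
    simp
  rw [key A, key B]
  apply lintegral_mono_ae
  filter_upwards [h] with x hx
  exact_mod_cast hx

end sum

variable {E : Type*} [NormedAddCommGroup E] [InnerProductSpace ℝ E] [FiniteDimensional ℝ E]
  [MeasurableSpace E] [BorelSpace E] {S : Submodule ℝ E}

/-- The points of a flat where a convex set is not generic form a null set. -/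
lemma null_bad (x₀ : E) {T : Set E} (hT : Convex ℝ T) :
    (Measure.hausdorffMeasure (finrank ℝ S : ℝ) : Measure E)
      {x | x - x₀ ∈ S ∧ x ∈ T ∧ ¬ GenS S T x} = 0 := by
  have hiso : Isometry (fun l : S => x₀ + (l : E)) := by
    apply Isometry.of_dist_eq
    intro a b
    simp [dist_eq_norm]
  set C : Set S := {l | x₀ + (l : E) ∈ T} with hC
  have hCconv : Convex ℝ C := by
    intro a ha b hb s t hs ht hst
    have := hT ha hb hs ht hst
    simp only [hC, mem_ofPred_eq, Submodule.coe_add, Submodule.coe_smul] at this ⊢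
    have e : s • (x₀ + (a : E)) + t • (x₀ + (b : E)) = x₀ + (s • (a : E) + t • (b : E)) := by
      have : x₀ = (s + t) • x₀ := by rw [hst, one_smul]
      conv_rhs => rw [this]
      module
    rwa [e] at this
  have hfr : (Measure.hausdorffMeasure (finrank ℝ S : ℝ) : Measure S) (frontier C) = 0 :=
    hCconv.addHaar_frontier _
  have himg : (Measure.hausdorffMeasure (finrank ℝ S : ℝ) : Measure E)
      ((fun l : S => x₀ + (l : E)) '' frontier C) = 0 := by
    rw [hiso.hausdorffMeasure_image (Or.inl (by positivity))]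
    exact hfr
  refine measure_mono_null ?_ himg
  rintro x ⟨hx, hxT, hxg⟩
  refine ⟨⟨x - x₀, hx⟩, ?_, by simp⟩
  have hmem : (⟨x - x₀, hx⟩ : S) ∈ C := by simpa [hC] using hxT
  refine ⟨subset_closure hmem, fun hint => hxg ?_⟩
  rw [mem_interior_iff_mem_nhds] at hint
  unfold GenS
  have hc : Tendsto (fun l : S => (⟨x - x₀, hx⟩ : S) + l) (𝓝 0) (𝓝 ⟨x - x₀, hx⟩) := by
    have : ContinuousAt (fun l : S => (⟨x - x₀, hx⟩ : S) + l) 0 := by fun_prop
    simpa using this.tendsto
  filter_upwards [hc hint] with l hl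
  have hl' : x₀ + ((⟨x - x₀, hx⟩ + l : S) : E) ∈ T := hl
  have e : x₀ + ((⟨x - x₀, hx⟩ + l : S) : E) = x + l := by
    rw [Submodule.coe_add]
    simp only
    abel
  rwa [e] at hl'

lemma flatS_closed (x₀ : E) : IsClosed (flatS S x₀) := by
  have : flatS S x₀ = (fun x => x - x₀) ⁻¹' (S : Set E) := rfl
  rw [this]
  exact (Submodule.closed_of_finiteDimensional _).preimage (by fun_prop)

/-- The measure used for the integration. -/
noncomputable def nuS (S : Submodule ℝ E) (B : Set E) (X : Finset E) : Measure E :=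
  (Measure.hausdorffMeasure (finrank ℝ S : ℝ) : Measure E).restrict (B ∩ ⋃ x₀ ∈ X, flatS S x₀)

lemma flatsS_measurable (X : Finset E) : MeasurableSet (⋃ x₀ ∈ X, flatS S x₀) := by
  apply X.measurableSet_biUnion
  intro x₀ _
  exact (flatS_closed x₀).measurableSet

lemma nuS_apply {B : Set E} {X : Finset E} {A : Set E} (hA : MeasurableSet A)
    (hX : A ⊆ ⋃ x₀ ∈ X, flatS S x₀) :
    nuS S B X A = (Measure.hausdorffMeasure (finrank ℝ S : ℝ) : Measure E) (A ∩ B) := by
  rw [nuS, Measure.restrict_apply hA]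
  congr 1
  ext x
  simp only [mem_inter_iff]
  constructor
  · rintro ⟨h1, h2, _⟩; exact ⟨h1, h2⟩
  · rintro ⟨h1, h2⟩; exact ⟨h1, h2, hX h1⟩

lemma ae_gen {ι : Type*} {T : ι → Set E} (hconv : ∀ i, Convex ℝ (T i)) {I : Finset ι} {B : Set E}
    (hB : MeasurableSet B) (X : Finset E) :
    ∀ᵐ x ∂(nuS S B X), x ∈ B ∧ ∀ i ∈ I, x ∈ T i → GenS S (T i) x := by
  have h1 : ∀ᵐ x ∂(nuS S B X), x ∈ B ∩ ⋃ x₀ ∈ X, flatS S x₀ :=
    ae_restrict_mem (hB.inter (flatsS_measurable X))
  have h2 : ∀ᵐ x ∂(nuS S B X), ∀ x₀ ∈ X, ∀ i ∈ I, ¬ (x - x₀ ∈ S ∧ x ∈ T i ∧ ¬ GenS S (T i) x) := by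
    rw [Finset.eventually_all]
    intro x₀ _
    rw [Finset.eventually_all]
    intro i _
    rw [ae_iff]
    simp only [not_not]
    have := null_bad (S := S) x₀ (hconv i)
    exact le_antisymm ((Measure.restrict_apply_le _ _).trans this.le) bot_le
  filter_upwards [h1, h2] with x hx1 hx2
  refine ⟨hx1.1, fun i hi hxi => ?_⟩
  obtain ⟨hx3, hx4⟩ := hx1
  simp only [mem_iUnion, exists_prop] at hx4
  obtain ⟨x₀, hx₀, hx5⟩ := hx4
  by_contra hc
  exact hx2 x₀ hx₀ i hi ⟨hx5, hxi, hc⟩

open Classical in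
/-- The counting argument: a local inequality implies the inequality for each tile. -/
theorem main_fam0 {ι κ : Type*} {T : ι → Set E} {V : ℝ≥0∞} {D : ℝ} (h : BoundedTiling T V D)
    (A B : Finset κ) {F : κ → ι → Set E} (hF : ∀ j ∈ A, ∀ i, F j i ⊆ T i)
    (hm : ∀ j i, MeasurableSet (F j i))
    (hflat : ∀ j i, ∃ X : Finset E, F j i ⊆ ⋃ x₀ ∈ X, flatS S x₀) (a b : ℝ≥0∞)
    (ha : ∀ i, ∑ j ∈ A, (Measure.hausdorffMeasure (finrank ℝ S : ℝ) : Measure E) (F j i) = a)
    (hb : ∀ i, ∑ j ∈ B, (Measure.hausdorffMeasure (finrank ℝ S : ℝ) : Measure E) (F j i) = b)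
    (hloc : ∀ (I : Finset ι) (x : E), (⋃ i ∈ I, T i) ∈ 𝓝 x → (∀ i ∈ I, x ∈ T i → GenS S (T i) x) →
      ∑ j ∈ A, (I.filter fun i => x ∈ F j i).card ≤ ∑ j ∈ B, (I.filter fun i => x ∈ F j i).card) :
    a ≤ b := by
  rw [← one_mul b]
  apply limit_arg (finrank ℝ E) D
  intro R hR
  by_cases hD : 0 ≤ D
  swap
  · exfalso
    have : (0 : E) ∈ (⋃ i, T i) := by rw [h.cover]; trivial
    simp only [mem_iUnion] at this
    obtain ⟨i, hi⟩ := this
    have := h.diam i 0 hi 0 hi
    rw [dist_self] at this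
    exact hD this
  set I : Finset ι := (h.finite (R + 1)).toFinset with hI
  set J : Finset ι := I.filter fun i => T i ⊆ closedBall 0 R with hJ
  have hIc : (I.card : ℝ≥0∞) * V ≤ volume (closedBall (0 : E) (R + 1 + D)) := by
    apply h.card_mul_le I
    intro i hi
    apply h.subset_ball
    simpa [hI] using hi
  have hJc : volume (closedBall (0 : E) (R - D)) ≤ (J.card : ℝ≥0∞) * V := by
    have hsub : closedBall (0 : E) (R - D) ⊆ ⋃ i ∈ J, T i := by
      intro x hx
      have hx2 : x ∈ ⋃ i, T i := by rw [h.cover]; trivial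
      simp only [mem_iUnion] at hx2
      obtain ⟨i, hi⟩ := hx2
      have hTi : T i ⊆ closedBall 0 R := by
        have := h.subset_ball (i := i) (r := R - D) ⟨x, hi, hx⟩
        rwa [sub_add_cancel] at this
      simp only [mem_iUnion, exists_prop]
      refine ⟨i, ?_, hi⟩
      rw [hJ, Finset.mem_filter]
      refine ⟨?_, hTi⟩
      simp only [hI, Finite.mem_toFinset, mem_ofPred_eq]
      exact ⟨x, hi, closedBall_subset_closedBall (by linarith) hx⟩
    calc volume (closedBall (0 : E) (R - D)) ≤ volume (⋃ i ∈ J, T i) := measure_mono hsub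
      _ ≤ ∑ i ∈ J, volume (T i) := measure_biUnion_finset_le _ _
      _ = (J.card : ℝ≥0∞) * V := by simp [h.vol]
  -- the integration
  choose X hX using hflat
  set XX : Finset E := (A ∪ B).biUnion (fun j => I.biUnion (X j)) with hXX
  have hXX' : ∀ j ∈ A ∪ B, ∀ i ∈ I, F j i ⊆ ⋃ x₀ ∈ XX, flatS S x₀ := by
    intro j hj i hi
    refine (hX j i).trans ?_
    apply biUnion_subset_biUnion_left
    intro x hx
    exact Finset.mem_biUnion.2 ⟨j, hj, Finset.mem_biUnion.2 ⟨i, hi, hx⟩⟩
  have hae : ∀ᵐ x ∂(nuS S (closedBall (0 : E) R) XX),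
      ∑ j ∈ A, (I.filter fun i => x ∈ F j i).card ≤ ∑ j ∈ B, (I.filter fun i => x ∈ F j i).card := by
    filter_upwards [ae_gen (S := S) h.conv (I := I) (B := closedBall (0 : E) R)
      isClosed_closedBall.measurableSet XX] with x hx
    apply hloc I x _ hx.2
    have hball : ball x 1 ⊆ ⋃ i ∈ I, T i := by
      intro y hy
      have hy2 : y ∈ ⋃ i, T i := by rw [h.cover]; trivial
      simp only [mem_iUnion] at hy2
      obtain ⟨i, hi⟩ := hy2
      simp only [mem_iUnion, exists_prop]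
      refine ⟨i, ?_, hi⟩
      simp only [hI, Finite.mem_toFinset, mem_ofPred_eq]
      refine ⟨y, hi, ?_⟩
      rw [mem_closedBall]
      have h1 := dist_triangle y x 0
      have h2 := mem_closedBall.1 hx.1
      have h3 := mem_ball.1 hy
      linarith
    exact Filter.mem_of_superset (ball_mem_nhds x one_pos) hball
  have hsum := fam_sum_le hm hae
  have hFa : ∀ j ∈ A ∪ B, ∀ i ∈ I, nuS S (closedBall (0 : E) R) XX (F j i) =
      (Measure.hausdorffMeasure (finrank ℝ S : ℝ) : Measure E) (F j i ∩ closedBall 0 R) :=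
    fun j hj i hi => nuS_apply (hm j i) (hXX' j hj i hi)
  have hlow : (J.card : ℝ≥0∞) * a ≤ ∑ j ∈ A, ∑ i ∈ I, nuS S (closedBall (0 : E) R) XX (F j i) := by
    rw [Finset.sum_comm]
    calc (J.card : ℝ≥0∞) * a = ∑ i ∈ J, a := by simp
      _ ≤ ∑ i ∈ J, ∑ j ∈ A, nuS S (closedBall (0 : E) R) XX (F j i) := by
          apply Finset.sum_le_sum
          intro i hi
          rw [hJ, Finset.mem_filter] at hi
          rw [← ha i]
          apply le_of_eq
          apply Finset.sum_congr rfl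
          intro j hj
          rw [hFa j (Finset.mem_union_left _ hj) i hi.1, inter_eq_left.2 ((hF j hj i).trans hi.2)]
      _ ≤ _ := Finset.sum_le_sum_of_subset (Finset.filter_subset _ _)
  have hupp : ∑ j ∈ B, ∑ i ∈ I, nuS S (closedBall (0 : E) R) XX (F j i) ≤ (I.card : ℝ≥0∞) * b := by
    rw [Finset.sum_comm]
    calc _ ≤ ∑ i ∈ I, b := by
          apply Finset.sum_le_sum
          intro i hi
          rw [← hb i]
          apply Finset.sum_le_sum
          intro j hj
          rw [hFa j (Finset.mem_union_right _ hj) i hi]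
          exact measure_mono inter_subset_left
      _ = _ := by simp
  have hfinal : (J.card : ℝ≥0∞) * a ≤ 1 * ((I.card : ℝ≥0∞) * b) := by
    rw [one_mul]
    exact hlow.trans (hsum.trans hupp)
  -- conclude
  have hv1 : volume (closedBall (0 : E) (R - D)) = ENNReal.ofReal ((R - D) ^ finrank ℝ E) *
      volume (closedBall (0 : E) 1) := Measure.addHaar_closedBall' _ _ (by linarith)
  have hv2 : volume (closedBall (0 : E) (R + 1 + D)) = ENNReal.ofReal ((R + 1 + D) ^ finrank ℝ E) *
      volume (closedBall (0 : E) 1) := Measure.addHaar_closedBall' _ _ (by linarith)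
  rw [hv2] at hIc
  rw [hv1] at hJc
  set W := volume (closedBall (0 : E) 1) with hW
  have hW0 : W ≠ 0 := (measure_closedBall_pos volume (0 : E) one_pos).ne'
  have hWt : W ≠ ⊤ := measure_closedBall_lt_top.ne
  have hVW : V * (ENNReal.ofReal ((R - D) ^ finrank ℝ E) * W * a) ≤
      V * (ENNReal.ofReal ((R + 1 + D) ^ finrank ℝ E) * W * (1 * b)) := by
    calc V * (ENNReal.ofReal ((R - D) ^ finrank ℝ E) * W * a) ≤ V * ((J.card * V) * a) := by gcongr
      _ = V * V * (J.card * a) := by ring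
      _ ≤ V * V * (1 * (I.card * b)) := by gcongr
      _ = V * ((I.card * V) * (1 * b)) := by ring
      _ ≤ V * (ENNReal.ofReal ((R + 1 + D) ^ finrank ℝ E) * W * (1 * b)) := by gcongr
  have h1 := (ENNReal.mul_le_mul_iff_right h.V_pos h.V_fin).1 hVW
  have h2 : W * (ENNReal.ofReal ((R - D) ^ finrank ℝ E) * a) ≤
      W * (ENNReal.ofReal ((R + 1 + D) ^ finrank ℝ E) * (1 * b)) := by
    calc _ = ENNReal.ofReal ((R - D) ^ finrank ℝ E) * W * a := by ring
      _ ≤ _ := h1
      _ = _ := by ring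
  exact (ENNReal.mul_le_mul_iff_right hW0 hWt).1 h2

theorem main_fam {S : Submodule ℝ E} {ι : Type*} {T : ι → Set E} {V : ℝ≥0∞} {D : ℝ}
    (h : BoundedTiling T V D) {J : Type*} [Fintype J] {F F' : J → ι → Set E}
    (hF : ∀ j i, F j i ⊆ T i) (hFm : ∀ j i, MeasurableSet (F j i)) (hF'm : ∀ j i, MeasurableSet (F' j i))
    (hflat : ∀ i, ∃ X : Finset E, (⋃ j, F j i) ∪ (⋃ j, F' j i) ⊆ ⋃ x₀ ∈ X, flatS S x₀) (a b : ℝ≥0∞)
    (ha : ∀ i, ∑ j, (Measure.hausdorffMeasure (finrank ℝ S : ℝ) : Measure E) (F j i) = a)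
    (hb : ∀ i, ∑ j, (Measure.hausdorffMeasure (finrank ℝ S : ℝ) : Measure E) (F' j i) = b)
    (hloc : ∀ (I : Finset ι) (x : E), (⋃ i ∈ I, T i) ∈ 𝓝 x → (∀ i ∈ I, x ∈ T i → GenS S (T i) x) →
      open Classical in ∑ j, (I.filter fun i => x ∈ F j i).card ≤ ∑ j, (I.filter fun i => x ∈ F' j i).card) :
    a ≤ b := by
  classical
  refine main_fam0 (S := S) h (Finset.univ.map (Function.Embedding.inl : J ↪ J ⊕ J))
    (Finset.univ.map (Function.Embedding.inr : J ↪ J ⊕ J)) (F := Sum.elim F F')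
    ?_ ?_ ?_ a b ?_ ?_ ?_
  · intro j hj i
    obtain ⟨j', -, rfl⟩ := Finset.mem_map.1 hj
    exact hF j' i
  · rintro (j | j) i
    · exact hFm j i
    · exact hF'm j i
  · rintro (j | j) i
    · obtain ⟨X, hX⟩ := hflat i
      exact ⟨X, (subset_iUnion (fun j => F j i) j).trans (subset_union_left.trans hX)⟩
    · obtain ⟨X, hX⟩ := hflat i
      exact ⟨X, (subset_iUnion (fun j => F' j i) j).trans (subset_union_right.trans hX)⟩
  · intro i
    rw [Finset.sum_map]
    exact ha i
  · intro i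
    rw [Finset.sum_map]
    exact hb i
  · intro I x hcov hgen
    rw [Finset.sum_map, Finset.sum_map]
    exact hloc I x hcov hgen

end Pool.EH56
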