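import Pool.Agent.EH56.LexA
import Pool.Agent.EH56.Fam

set_option autoImplicit false
set_option linter.unusedSectionVars false

/-!
# EH56/Finite: the measures of the iterated faces are finite
-/

namespace Pool.EH56

open Set Filter Topology MeasureTheory Module Metric
open scoped RealInnerProductSpace ENNReal

variable {E : Type*} [NormedAddCommGroup E] [InnerProductSpace ℝ E] [FiniteDimensional ℝ E]
  [MeasurableSpace E] [BorelSpace E]

theorem flat_finite {S : Submodule ℝ E} {x₀ : E} {A : Set E} (hA : IsCompact A) (hS : A ⊆ flatS S x₀) :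
    (Measure.hausdorffMeasure (finrank ℝ S : ℝ) : Measure E) A < ⊤ := by
  have hiso : Isometry (fun l : S => x₀ + (l : E)) := by
    apply Isometry.of_dist_eq
    intro a b
    simp [dist_eq_norm]
  have himg : A ⊆ (fun l : S => x₀ + (l : E)) '' ((fun l : S => x₀ + (l : E)) ⁻¹' A) := by
    intro x hx
    refine ⟨⟨x - x₀, hS hx⟩, ?_, ?_⟩
    · show x₀ + (x - x₀) ∈ A
      rw [add_sub_cancel]; exact hx
    · show x₀ + (x - x₀) = x
      rw [add_sub_cancel]
  have hemb : IsClosedEmbedding (fun l : S => x₀ + (l : E)) := hiso.isClosedEmbedding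
  have hcomp : IsCompact ((fun l : S => x₀ + (l : E)) ⁻¹' A) := hemb.isCompact_preimage hA
  refine lt_of_le_of_lt (measure_mono himg) ?_
  rw [hiso.hausdorffMeasure_image (Or.inl (by positivity))]
  exact hcomp.measure_lt_top

theorem iface_finite {k : ℕ} {P : Set E} (hP : IsCompact P) (u : Fin k → E) (s : Fin k → ℤˣ) :
    (Measure.hausdorffMeasure (finrank ℝ (perpK u) : ℝ) : Measure E) (iface k P (sdir u s)) < ⊤ := by
  obtain ⟨x₀, hx₀⟩ := iface_flat P u s
  exact flat_finite (hP.of_isClosed_subset (iface_closed k hP.isClosed _) (iface_subset k _ _)) hx₀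

/-- the dimension of the complement of an orthonormal frame -/
theorem finrank_perpK {k : ℕ} {u : Fin k → E} (hu : Orthonormal ℝ u) :
    finrank ℝ (perpK u) + k = finrank ℝ E := by
  have h1 := Submodule.finrank_add_finrank_orthogonal (Submodule.span ℝ (range u))
  have h2 : finrank ℝ (Submodule.span ℝ (range u)) = k := by
    have := finrank_span_eq_card hu.linearIndependent
    simpa using this
  unfold perpK
  omega

end Pool.EH56
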