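import Pool.Agent.EH56.Defs

set_option autoImplicit false
set_option linter.unusedSectionVars false

/-!
# EH56/LamE: the local functional vanishes on sets with empty interior

`cone_int`: if `z ∈ interior (sec K)` and `p ∈ K` with `0 < σ p 0` then `Fin.cons (ε σ) z ∈ interior K` for all small
`ε > 0`: near this point `w = (1 - t) Fin.cons 0 b + t p` with `t = w 0 / p 0`, `b = tail (w - t p) / (1 - t)`.
`sec_int_empty`, `lam_of_empty`: induction on `k`.
-/

namespace Pool.EH56

open Set Filter Topology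

variable {k : ℕ}

theorem cons_cont (c : ℝ → ℝ) (hc : Continuous c) (z : Fin k → ℝ) :
    Continuous (fun t : ℝ => (Fin.cons (c t) z : Fin (k + 1) → ℝ)) := by
  rw [continuous_pi_iff]
  intro i
  refine Fin.cases ?_ (fun j => ?_) i
  · simpa using hc
  · simpa using (continuous_const : Continuous fun _ : ℝ => z j)

theorem cons_cont' : Continuous (fun z : Fin k → ℝ => (Fin.cons 0 z : Fin (k + 1) → ℝ)) := by
  rw [continuous_pi_iff]
  intro i
  refine Fin.cases ?_ (fun j => ?_) i
  · simpa using (continuous_const : Continuous fun _ : Fin k → ℝ => (0 : ℝ))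
  · simpa using continuous_apply j

theorem cons_zero_zero : (Fin.cons 0 (0 : Fin k → ℝ) : Fin (k + 1) → ℝ) = 0 := by
  funext i
  refine Fin.cases ?_ (fun j => ?_) i <;> simp

theorem sec_convex {k : ℕ} {K : Set (Fin (k + 1) → ℝ)} (hK : Convex ℝ K) : Convex ℝ (sec K) := by
  intro y hy z hz a b ha hb hab
  have h := hK hy hz ha hb hab
  show (Fin.cons 0 (a • y + b • z) : Fin (k + 1) → ℝ) ∈ K
  convert h using 1
  funext i
  refine Fin.cases ?_ (fun j => ?_) i <;> simp

theorem sec_closed {k : ℕ} {K : Set (Fin (k + 1) → ℝ)} (hK : IsClosed K) : IsClosed (sec K) :=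
  hK.preimage cons_cont'

theorem sec_zero {k : ℕ} {K : Set (Fin (k + 1) → ℝ)} (hK : (0 : Fin (k + 1) → ℝ) ∈ K) :
    (0 : Fin k → ℝ) ∈ sec K := by
  show (Fin.cons 0 (0 : Fin k → ℝ) : Fin (k + 1) → ℝ) ∈ K
  rw [cons_zero_zero]
  exact hK

/-- a cone over an interior point of the section is interior -/
theorem cone_int {K : Set (Fin (k + 1) → ℝ)} (hK : Convex ℝ K) {p : Fin (k + 1) → ℝ} (hp : p ∈ K) {σ : ℝ}
    (hσ : 0 < σ * p 0) {z : Fin k → ℝ} (hz : z ∈ interior (sec K)) :
    ∀ᶠ ε : ℝ in 𝓝[>] 0, (Fin.cons (ε * σ) z : Fin (k + 1) → ℝ) ∈ interior K := by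
  have hp0 : p 0 ≠ 0 := by
    intro h
    rw [h, mul_zero] at hσ
    exact lt_irrefl _ hσ
  -- coordinates
  let f : (Fin (k + 1) → ℝ) → ℝ := fun w => w 0 / p 0
  let g : (Fin (k + 1) → ℝ) → (Fin k → ℝ) := fun w j => (w j.succ - f w * p j.succ) / (1 - f w)
  set A : Set (Fin (k + 1) → ℝ) := {w | 0 < f w ∧ f w < 1 ∧ g w ∈ interior (sec K)} with hA
  have hf : Continuous f := (continuous_apply 0).div_const _
  have hAo : IsOpen A := by
    have h1 : IsOpen {w : Fin (k + 1) → ℝ | 0 < f w ∧ f w < 1} :=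
      (isOpen_lt continuous_const hf).inter (isOpen_lt hf continuous_const)
    have h2 : ContinuousOn g {w : Fin (k + 1) → ℝ | 0 < f w ∧ f w < 1} := by
      rw [continuousOn_pi]
      intro j
      apply ContinuousOn.div
      · exact (((continuous_apply (Fin.succ j)).sub (hf.mul continuous_const))).continuousOn
      · exact (continuous_const.sub hf).continuousOn
      · intro w hw
        have := hw.2
        intro h
        linarith
    have h3 := h2.isOpen_inter_preimage h1 (isOpen_interior (s := sec K))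
    convert h3 using 1
    ext w
    simp only [hA, mem_ofPred_eq, mem_inter_iff, mem_preimage]
    tauto
  have hAK : A ⊆ K := by
    rintro w ⟨h1, h2, h3⟩
    have h4 : (Fin.cons 0 (g w) : Fin (k + 1) → ℝ) ∈ K := (interior_subset h3 : g w ∈ sec K)
    have h5 := hK h4 hp (show (0 : ℝ) ≤ 1 - f w by linarith) h1.le (by ring)
    convert h5 using 1
    funext i
    refine Fin.cases ?_ (fun j => ?_) i
    · simp only [Pi.add_apply, Pi.smul_apply, Fin.cons_zero, smul_eq_mul, mul_zero, zero_add]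
      show w 0 = w 0 / p 0 * p 0
      field_simp
    · simp only [Pi.add_apply, Pi.smul_apply, Fin.cons_succ, smul_eq_mul]
      show w j.succ = (1 - f w) * ((w j.succ - f w * p j.succ) / (1 - f w)) + f w * p j.succ
      have : (1 - f w) ≠ 0 := by linarith
      field_simp
      ring
  have hAi : A ⊆ interior K := interior_maximal hAK hAo
  -- the points are eventually in `A`
  have hfe : ∀ ε : ℝ, f (Fin.cons (ε * σ) z) = ε * (σ / p 0) := by
    intro ε
    show (Fin.cons (ε * σ) z : Fin (k + 1) → ℝ) 0 / p 0 = _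
    rw [Fin.cons_zero]
    ring
  have hσp : 0 < σ / p 0 := by
    have h1 : σ / p 0 = σ * p 0 / (p 0 * p 0) := by field_simp
    rw [h1]
    exact div_pos hσ (mul_self_pos.mpr hp0)
  have hg0 : Tendsto (fun ε : ℝ => g (Fin.cons (ε * σ) z)) (𝓝 0) (𝓝 z) := by
    have hcont : ContinuousAt (fun ε : ℝ => g (Fin.cons (ε * σ) z)) 0 := by
      rw [continuousAt_pi]
      intro j
      have e : (fun ε : ℝ => g (Fin.cons (ε * σ) z) j) =
          fun ε : ℝ => (z j - ε * (σ / p 0) * p j.succ) / (1 - ε * (σ / p 0)) := by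
        funext ε
        show ((Fin.cons (ε * σ) z : Fin (k + 1) → ℝ) j.succ - f (Fin.cons (ε * σ) z) * p j.succ) /
          (1 - f (Fin.cons (ε * σ) z)) = _
        rw [hfe, Fin.cons_succ]
      rw [e]
      apply ContinuousAt.div
      · fun_prop
      · fun_prop
      · simp
    have h1 := hcont.tendsto
    have h2 : g (Fin.cons ((0 : ℝ) * σ) z) = z := by
      funext j
      show ((Fin.cons ((0 : ℝ) * σ) z : Fin (k + 1) → ℝ) j.succ - f (Fin.cons ((0 : ℝ) * σ) z) * p j.succ) /
          (1 - f (Fin.cons ((0 : ℝ) * σ) z)) = _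
      rw [hfe, Fin.cons_succ]
      simp
    rwa [h2] at h1
  have h1 : ∀ᶠ ε : ℝ in 𝓝[>] 0, g (Fin.cons (ε * σ) z) ∈ interior (sec K) :=
    (hg0.eventually (isOpen_interior.mem_nhds hz)).filter_mono nhdsWithin_le_nhds
  have h2 : ∀ᶠ ε : ℝ in 𝓝[>] 0, ε * (σ / p 0) < 1 := by
    have hc : Continuous (fun ε : ℝ => ε * (σ / p 0)) := by fun_prop
    have h3 := hc.tendsto 0
    rw [zero_mul] at h3
    exact (h3.eventually_lt_const one_pos).filter_mono nhdsWithin_le_nhds
  filter_upwards [h1, h2, self_mem_nhdsWithin] with ε h3 h4 h5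
  apply hAi
  refine ⟨?_, ?_, h3⟩
  · rw [hfe]
    exact mul_pos h5 hσp
  · rw [hfe]
    exact h4

theorem sec_int_empty {k : ℕ} {K : Set (Fin (k + 1) → ℝ)} (hK : Convex ℝ K) (h : interior K = ∅)
    {y : Fin (k + 1) → ℝ} (hy : y ∈ K) (hy0 : y 0 ≠ 0) : interior (sec K) = ∅ := by
  by_contra hs
  obtain ⟨z, hz⟩ := nonempty_iff_ne_empty.mpr hs
  have h1 := cone_int hK hy (σ := y 0) (mul_self_pos.mpr hy0) hz
  obtain ⟨ε, hε⟩ := h1.exists
  rw [h] at hε
  exact hε

theorem lam_of_empty (k : ℕ) {K : Set (Fin k → ℝ)} (hK : Convex ℝ K) (h0 : (0 : Fin k → ℝ) ∈ K)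
    (h : interior K = ∅) : lam k K = 0 := by
  induction k with
  | zero =>
    exfalso
    have h1 : K = univ := by
      ext x
      simp only [mem_univ, iff_true]
      rwa [Subsingleton.elim x 0]
    rw [h1, interior_univ] at h
    exact (univ_nonempty (α := Fin 0 → ℝ)).ne_empty h
  | succ k ih =>
    unfold lam
    by_cases hflat : ∀ y ∈ K, y 0 = 0
    · rw [if_pos (fun y hy => (hflat y hy).le), if_pos (fun y hy => (hflat y hy).ge), sub_self, zero_mul]
    · push Not at hflat
      obtain ⟨y, hy, hy0⟩ := hflat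
      rw [ih (sec_convex hK) (sec_zero h0) (sec_int_empty hK h hy hy0), mul_zero]

end Pool.EH56
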