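import Pool.Agent.EH56.Defs

set_option autoImplicit false
set_option linter.unusedSectionVars false

/-!
# EH56/LexA: the local functional as a signed sum, and iterated faces

`lexK_succ`: `y ∈ K` with `y 0 = 0` is `Fin.cons 0 (tail)`.
`lam_eq`: induction on `k`; sum over `Fin (k+1) → ℤˣ` = sum over `ℤˣ × (Fin k → ℤˣ)` (`Fin.consEquiv` or
`Fin.consPiProd`), `Finset.univ = {1, -1}` for `ℤˣ`, `Fin.prod_univ_succ`.
`mem_iface`: induction on `k` generalizing `P`, as `H14Belt.mem_face_face`.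
-/

namespace Pool.EH56

open Set Filter Topology
open scoped RealInnerProductSpace
open Pool.Agent.H14Belt (face mot)

theorem lexLE_smul {k : ℕ} {a : Fin k → ℝ} {ε : ℝ} (hε : 0 < ε) :
    LexLE k (fun i => ε * a i) ↔ LexLE k a := by
  induction k with
  | zero => simp [LexLE]
  | succ k ih =>
    simp only [LexLE]
    rw [ih (a := fun i => a i.succ)]
    have e1 : ε * a 0 < 0 ↔ a 0 < 0 := by
      constructor
      · intro h; by_contra hc; push Not at hc
        have := mul_nonneg hε.le hc; linarith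
      · intro h; exact mul_neg_of_pos_of_neg hε h
    have e2 : ε * a 0 = 0 ↔ a 0 = 0 := by simp [hε.ne']
    rw [e1, e2]

/-- if both `a` and `-a` are lexicographically nonpositive then `a = 0` -/
theorem lexLE_antisymm {k : ℕ} {a : Fin k → ℝ} (h1 : LexLE k a) (h2 : LexLE k (fun i => -a i)) :
    ∀ i, a i = 0 := by
  induction k with
  | zero => intro i; exact i.elim0
  | succ k ih =>
    rcases h1 with h1 | ⟨h1, h1'⟩
    · rcases h2 with h2 | ⟨h2, -⟩
      · exfalso; linarith
      · exfalso; linarith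
    · rcases h2 with h2 | ⟨-, h2'⟩
      · exfalso; linarith
      · intro i
        refine Fin.cases ?_ (fun i => ?_) i
        · exact h1
        · exact ih h1' h2' i

theorem lexK_succ {k : ℕ} (s : Fin (k + 1) → ℤˣ) (K : Set (Fin (k + 1) → ℝ)) :
    LexK (k + 1) s K ↔ (∀ y ∈ K, sg (s 0) * y 0 ≤ 0) ∧ LexK k (fun i => s i.succ) (sec K) := by
  constructor
  · intro h
    refine ⟨fun y hy => ?_, fun z hz => ?_⟩
    · rcases h y hy with h1 | ⟨h1, -⟩
      · exact h1.le
      · exact h1.le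
    · rcases h _ hz with h1 | ⟨-, h1⟩
      · simp at h1
      · simpa using h1
  · rintro ⟨h1, h2⟩ y hy
    rcases (h1 y hy).lt_or_eq with h3 | h3
    · exact Or.inl h3
    · refine Or.inr ⟨h3, ?_⟩
      have hy0 : y 0 = 0 := by
        rcases mul_eq_zero.mp h3 with h4 | h4
        · exfalso; rcases sg_cases (s 0) with h5 | h5 <;> rw [h5] at h4 <;> norm_num at h4
        · exact h4
      have hz : Fin.tail y ∈ sec K := by
        show Fin.cons 0 (Fin.tail y) ∈ K
        rw [← hy0, Fin.cons_self_tail]; exact hy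
      exact h2 _ hz

open Classical in
theorem lam_eq (k : ℕ) (K : Set (Fin k → ℝ)) :
    lam k K = ∑ s : Fin k → ℤˣ, ((∏ i, s i : ℤˣ) : ℤ) * (if LexK k s K then 1 else 0) := by
  induction k with
  | zero =>
    rw [Fintype.sum_unique]
    have : ∀ s : Fin 0 → ℤˣ, LexK 0 s K ↔ True := fun s => iff_true_intro fun y _ => trivial
    simp only [this, if_true]
    simp [lam]
  | succ k ih =>
    rw [← Equiv.sum_comp (Fin.consEquiv (fun _ : Fin (k + 1) => ℤˣ)), Fintype.sum_prod_type]
    have h1 : ∀ b : ℤˣ, ∀ ε : Fin k → ℤˣ,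
        ((∏ j, (Fin.consEquiv (fun _ : Fin (k + 1) => ℤˣ)) (b, ε) j : ℤˣ) : ℤ) *
          (if LexK (k + 1) ((Fin.consEquiv (fun _ : Fin (k + 1) => ℤˣ)) (b, ε)) K then (1 : ℤ) else 0) =
        (if ∀ y ∈ K, sg b * y 0 ≤ 0 then (b : ℤ) else 0) *
          (((∏ j, ε j : ℤˣ) : ℤ) * (if LexK k ε (sec K) then 1 else 0)) := by
      intro b ε
      have e : (Fin.consEquiv (fun _ : Fin (k + 1) => ℤˣ)) (b, ε) = (Fin.cons b ε : Fin (k + 1) → ℤˣ) := rfl
      have hL : LexK (k + 1) (Fin.cons b ε : Fin (k + 1) → ℤˣ) K ↔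
          (∀ y ∈ K, sg b * y 0 ≤ 0) ∧ LexK k ε (sec K) := by
        have := lexK_succ (Fin.cons b ε : Fin (k + 1) → ℤˣ) K
        simpa only [Fin.cons_zero, Fin.cons_succ] using this
      rw [e, Fin.prod_univ_succ]
      simp only [Fin.cons_zero, Fin.cons_succ, Units.val_mul]
      by_cases h2 : ∀ y ∈ K, sg b * y 0 ≤ 0
      · by_cases h3 : LexK k ε (sec K)
        · rw [if_pos (hL.mpr ⟨h2, h3⟩), if_pos h2, if_pos h3]
          ring
        · rw [if_neg (fun hh => h3 (hL.mp hh).2), if_pos h2, if_neg h3]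
          ring
      · rw [if_neg (fun hh => h2 (hL.mp hh).1), if_neg h2]
        ring
    simp only [h1]
    simp only [← Finset.mul_sum]
    rw [← ih (sec K), ← Finset.sum_mul]
    have hu : (Finset.univ : Finset ℤˣ) = {1, -1} := rfl
    rw [hu, Finset.sum_pair (by decide)]
    have e1 : (∀ y ∈ K, sg 1 * y 0 ≤ 0) ↔ ∀ y ∈ K, y 0 ≤ 0 := by
      simp [sg_one]
    have e2 : (∀ y ∈ K, sg (-1) * y 0 ≤ 0) ↔ ∀ y ∈ K, 0 ≤ y 0 := by
      simp [sg_neg, sg_one]
    have f1 : (if ∀ y ∈ K, sg 1 * y 0 ≤ 0 then ((1 : ℤˣ) : ℤ) else 0) = if ∀ y ∈ K, y 0 ≤ 0 then 1 else 0 := by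
      by_cases h : ∀ y ∈ K, y 0 ≤ 0
      · rw [if_pos h, if_pos (e1.mpr h)]; rfl
      · rw [if_neg h, if_neg (fun hh => h (e1.mp hh))]
    have f2 : (if ∀ y ∈ K, sg (-1) * y 0 ≤ 0 then ((-1 : ℤˣ) : ℤ) else 0) =
        -(if ∀ y ∈ K, 0 ≤ y 0 then 1 else 0) := by
      by_cases h : ∀ y ∈ K, 0 ≤ y 0
      · rw [if_pos h, if_pos (e2.mpr h)]; rfl
      · rw [if_neg h, if_neg (fun hh => h (e2.mp hh))]; rfl
    rw [f1, f2]
    simp only [lam]
    ring

variable {E : Type*} [NormedAddCommGroup E] [InnerProductSpace ℝ E]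

theorem mem_iface (k : ℕ) (P : Set E) (w : Fin k → E) (x : E) :
    x ∈ iface k P w ↔ x ∈ P ∧ ∀ y ∈ P, LexLE k (fun i => ⟪w i, y - x⟫) := by
  induction k generalizing P with
  | zero => simp [iface, LexLE]
  | succ k ih =>
    show x ∈ iface k (face P (w 0)) (fun i => w i.succ) ↔ _
    rw [ih]
    constructor
    · rintro ⟨⟨h1, h2⟩, h3⟩
      refine ⟨h1, fun y hy => ?_⟩
      rcases (h2 y hy).lt_or_eq with h4 | h4
      · left
        show ⟪w 0, y - x⟫ < 0
        rw [inner_sub_right]; linarith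
      · right
        refine ⟨?_, ?_⟩
        · show ⟪w 0, y - x⟫ = 0
          rw [inner_sub_right]; linarith
        · exact h3 y ⟨hy, fun z hz => by rw [h4]; exact h2 z hz⟩
    · rintro ⟨h1, h2⟩
      have h3 : ∀ y ∈ P, ⟪w 0, y⟫ ≤ ⟪w 0, x⟫ := by
        intro y hy
        rcases h2 y hy with h4 | ⟨h4, -⟩
        · have h5 : ⟪w 0, y - x⟫ < 0 := h4
          rw [inner_sub_right] at h5; linarith
        · have h5 : ⟪w 0, y - x⟫ = 0 := h4
          rw [inner_sub_right] at h5; linarith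
      refine ⟨⟨h1, h3⟩, ?_⟩
      rintro y ⟨hy, hy'⟩
      rcases h2 y hy with h4 | ⟨-, h4⟩
      · exfalso
        have h5 : ⟪w 0, y - x⟫ < 0 := h4
        rw [inner_sub_right] at h5
        have := hy' x h1
        linarith
      · exact h4

theorem iface_subset (k : ℕ) (P : Set E) (w : Fin k → E) : iface k P w ⊆ P := by
  intro x hx
  exact ((mem_iface k P w x).mp hx).1

theorem iface_closed (k : ℕ) {P : Set E} (hP : IsClosed P) (w : Fin k → E) : IsClosed (iface k P w) := by
  induction k generalizing P with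
  | zero => exact hP
  | succ k ih => exact ih (Pool.Agent.H14Belt.face_closed hP (w 0)) (fun i => w i.succ)

/-- `iface_mot`: by `H14Belt.face_mot` and induction -/
theorem iface_mot (k : ℕ) (P : Set E) (t : E) (σ : ℝ) (w : Fin k → E) :
    iface k (mot t σ '' P) w = mot t σ '' iface k P (fun i => σ • w i) := by
  induction k generalizing P with
  | zero => rfl
  | succ k ih =>
    show iface k (face (mot t σ '' P) (w 0)) (fun i => w i.succ) = _
    rw [Pool.Agent.H14Belt.face_mot, ih]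
    rfl

/-- an iterated face lies in one flat orthogonal to the directions -/
theorem iface_flat {k : ℕ} (P : Set E) (u : Fin k → E) (s : Fin k → ℤˣ) :
    ∃ x₀, iface k P (sdir u s) ⊆ flatS (perpK u) x₀ := by
  by_cases h : (iface k P (sdir u s)).Nonempty
  · obtain ⟨x₀, hx₀⟩ := h
    refine ⟨x₀, fun x hx => ?_⟩
    show x - x₀ ∈ perpK u
    rw [mem_perpK]
    obtain ⟨h1, h2⟩ := (mem_iface k P _ x).mp hx
    obtain ⟨h3, h4⟩ := (mem_iface k P _ x₀).mp hx₀
    have h5 := h4 x h1
    have h6 : LexLE k (fun i => -⟪sdir u s i, x - x₀⟫) := by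
      have := h2 x₀ h3
      have e : (fun i => ⟪sdir u s i, x₀ - x⟫) = fun i => -⟪sdir u s i, x - x₀⟫ := by
        funext i
        rw [← inner_neg_right, neg_sub]
      rw [e] at this
      exact this
    have h7 := lexLE_antisymm h5 h6
    intro i
    have h8 := h7 i
    simp only [sdir] at h8
    rw [real_inner_smul_left, mul_eq_zero] at h8
    rcases h8 with h8 | h8
    · exfalso; rcases sg_cases (s i) with h9 | h9 <;> rw [h9] at h8 <;> norm_num at h8
    · exact h8
  · refine ⟨0, ?_⟩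
    rw [Set.not_nonempty_iff_eq_empty.mp h]
    exact Set.empty_subset _

end Pool.EH56
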