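import Pool.Agent.EH56.Sec

set_option autoImplicit false
set_option linter.unusedSectionVars false

/-!
# EH56/Loc: the sum of the local functional over a local tiling

`sum_lam`: induction on `k`, for all `s`, `K`.  `k = 0`: there is exactly one tile.
`k + 1`: `[∀ y ∈ K, y 0 ≤ 0] - [∀ y ∈ K, 0 ≤ y 0] = [∃ y ∈ K, y 0 < 0] - [∃ y ∈ K, 0 < y 0]`, so the sum is the difference
of two sums over local tilings of `ℝ^k` (`sec_loc`) and over sections with empty interior (`lam_of_empty`).
-/

namespace Pool.EH56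

open Set Filter Topology

open Classical in
theorem lam_succ {k : ℕ} (K : Set (Fin (k + 1) → ℝ)) : lam (k + 1) K =
    (if ∃ p ∈ K, (1 : ℝ) * p 0 < 0 then lam k (sec K) else 0) -
      (if ∃ p ∈ K, (-1 : ℝ) * p 0 < 0 then lam k (sec K) else 0) := by
  have e1 : (if ∃ p ∈ K, (1 : ℝ) * p 0 < 0 then lam k (sec K) else 0) =
      (if ∀ y ∈ K, 0 ≤ y 0 then 0 else lam k (sec K)) := by
    by_cases h : ∀ y ∈ K, 0 ≤ y 0
    · rw [if_pos h, if_neg]
      rintro ⟨p, hp, h'⟩
      have := h p hp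
      linarith
    · rw [if_neg h, if_pos]
      push Not at h
      obtain ⟨p, hp, h'⟩ := h
      exact ⟨p, hp, by linarith⟩
  have e2 : (if ∃ p ∈ K, (-1 : ℝ) * p 0 < 0 then lam k (sec K) else 0) =
      (if ∀ y ∈ K, y 0 ≤ 0 then 0 else lam k (sec K)) := by
    by_cases h : ∀ y ∈ K, y 0 ≤ 0
    · rw [if_pos h, if_neg]
      rintro ⟨p, hp, h'⟩
      have := h p hp
      linarith
    · rw [if_neg h, if_pos]
      push Not at h
      obtain ⟨p, hp, h'⟩ := h
      exact ⟨p, hp, by linarith⟩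
  rw [e1, e2]
  show ((if ∀ y ∈ K, y 0 ≤ 0 then 1 else 0) - (if ∀ y ∈ K, 0 ≤ y 0 then 1 else 0)) * lam k (sec K) = _
  by_cases h1 : ∀ y ∈ K, 0 ≤ y 0
  · by_cases h2 : ∀ y ∈ K, y 0 ≤ 0
    · rw [if_pos h1, if_pos h2, if_pos h1, if_pos h2]; ring
    · rw [if_pos h1, if_neg h2, if_pos h1, if_neg h2]; ring
  · by_cases h2 : ∀ y ∈ K, y 0 ≤ 0
    · rw [if_neg h1, if_pos h2, if_neg h1, if_pos h2]; ring
    · rw [if_neg h1, if_neg h2, if_neg h1, if_neg h2]; ring

theorem sum_lam (k : ℕ) {ι : Type*} {s : Finset ι} {K : ι → Set (Fin k → ℝ)} (h : LocT s K) :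
    ∑ i ∈ s, lam k (K i) = if k = 0 then 1 else 0 := by
  classical
  induction k generalizing s with
  | zero =>
    rw [if_pos rfl]
    have h1 : s.card = 1 := by
      rw [Finset.card_eq_one]
      have h2 : (0 : Fin 0 → ℝ) ∈ ⋃ i ∈ s, K i := mem_of_mem_nhds h.cover
      simp only [mem_iUnion, exists_prop] at h2
      obtain ⟨i, hi, -⟩ := h2
      refine ⟨i, ?_⟩
      ext j
      rw [Finset.mem_singleton]
      constructor
      · intro hj
        by_contra hne
        obtain ⟨x, hx⟩ := h.int_ne i hi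
        obtain ⟨y, hy⟩ := h.int_ne j hj
        rw [Subsingleton.elim y x] at hy
        exact Set.disjoint_left.mp (h.disj j hj i hi hne) hy hx
      · rintro rfl
        exact hi
    show ∑ _i ∈ s, (1 : ℤ) = 1
    rw [Finset.sum_const, h1, one_smul]
  | succ k ih =>
    rw [if_neg (Nat.succ_ne_zero k)]
    have key : ∀ σ : ℝ, σ = 1 ∨ σ = -1 →
        ∑ i ∈ s, (if ∃ p ∈ K i, σ * p 0 < 0 then lam k (sec (K i)) else 0) = if k = 0 then 1 else 0 := by
      intro σ hσ
      rw [← ih (sec_loc h hσ), ← Finset.sum_filter, Finset.sum_filter (fun i =>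
        (interior (sec (K i))).Nonempty)]
      refine Finset.sum_congr rfl fun i hi => ?_
      by_cases hi2 : (interior (sec (K i))).Nonempty
      · rw [if_pos hi2]
      · rw [if_neg hi2]
        have hi1 := (Finset.mem_filter.mp hi).1
        exact lam_of_empty k (sec_convex (h.conv i hi1)) (sec_zero (h.zero i hi1))
          (not_nonempty_iff_eq_empty.mp hi2)
    rw [Finset.sum_congr rfl fun i _ => lam_succ (K i), Finset.sum_sub_distrib, key 1 (Or.inl rfl),
      key (-1) (Or.inr rfl), sub_self]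

end Pool.EH56
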