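import Pool.Agent.EH56.LexA

set_option autoImplicit false
set_option linter.unusedSectionVars false

/-!
# EH56/SliceK: slices in the directions of an orthonormal frame

Copy of H14Belt/Slice and H14Belt/Local (`localTiling`) with `u : Fin k → E` orthonormal in place of `u, v`:
decomposition `w - ∑ i, ⟪u i, w⟫ • u i ∈ perpK u` (`mem_perpK`), `small_scale`, `mem_slice_small`,
`interior_slice_small`, `slice_int_ne`, `slice_dense`, `slice_disjoint`, `localTiling`.
`iface_iff_lex`: `mem_iface` (EH56/LexA); `→`: the point `x + ∑ y i • u i` of `T` has `⟪sg (s i) • u i, · - x⟫ = sg (s i) * y i`;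
`←`: for `y ∈ T` the small multiple `ε ⟪u i, y - x⟫` is in the slice, `lexLE_smul`.
-/

namespace Pool.EH56

open Set Filter Topology
open scoped RealInnerProductSpace

variable {E : Type*} [NormedAddCommGroup E] [InnerProductSpace ℝ E] {k : ℕ} {u : Fin k → E}

theorem GenS.mem {S : Submodule ℝ E} {T : Set E} {x : E} (h : GenS S T x) : x ∈ T := by
  have := Filter.Eventually.self_of_nhds h
  simpa using this

/-- the point of the slice with coordinates `y` -/
def pt (u : Fin k → E) (x : E) (y : Fin k → ℝ) : E := x + ∑ i, y i • u i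

theorem mem_sliceK {T : Set E} {x : E} {y : Fin k → ℝ} : y ∈ sliceK u T x ↔ pt u x y ∈ T := Iff.rfl

theorem pt_cont (u : Fin k → E) (x : E) : Continuous (pt u x) := by
  unfold pt
  fun_prop

theorem pt_combo (u : Fin k → E) (x : E) (p q : Fin k → ℝ) {a b : ℝ} (hab : a + b = 1) :
    a • pt u x p + b • pt u x q = pt u x (a • p + b • q) := by
  unfold pt
  have h1 : ∑ i, (a • p + b • q) i • u i = a • ∑ i, p i • u i + b • ∑ i, q i • u i := by
    rw [Finset.smul_sum, Finset.smul_sum, ← Finset.sum_add_distrib]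
    refine Finset.sum_congr rfl fun i _ => ?_
    simp only [Pi.add_apply, Pi.smul_apply, smul_eq_mul]
    module
  rw [h1]
  have h2 : x = (a + b) • x := by rw [hab, one_smul]
  conv_rhs => rw [h2]
  module

theorem sliceK_convex {T : Set E} (hT : Convex ℝ T) (x : E) : Convex ℝ (sliceK u T x) := by
  intro p hp q hq a b ha hb hab
  have := hT hp hq ha hb hab
  rw [mem_sliceK, ← pt_combo u x p q hab]
  exact this

theorem sliceK_closed {T : Set E} (hT : IsClosed T) (x : E) : IsClosed (sliceK u T x) :=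
  hT.preimage (pt_cont u x)

theorem decompK (hu : Orthonormal ℝ u) (w : E) : w - ∑ i, ⟪u i, w⟫ • u i ∈ perpK u := by
  rw [mem_perpK]
  intro i
  rw [inner_sub_right, hu.inner_right_fintype, sub_self]

theorem small_scaleK (hu : Orthonormal ℝ u) {T : Set E} {x : E} (hx : GenS (perpK u) T x) (w : E) :
    ∀ᶠ ε : ℝ in 𝓝[>] 0, x - (ε / (1 - ε)) • (w - ∑ i, ⟪u i, w⟫ • u i) ∈ T := by
  set l : perpK u := ⟨w - ∑ i, ⟪u i, w⟫ • u i, decompK hu w⟩ with hl
  have hlim : Tendsto (fun ε : ℝ => (-(ε / (1 - ε))) • l) (𝓝[>] 0) (𝓝 0) := by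
    have hc : ContinuousAt (fun ε : ℝ => (-(ε / (1 - ε))) • l) 0 := by
      have h1 : ContinuousAt (fun ε : ℝ => -(ε / (1 - ε))) 0 := by
        apply ContinuousAt.neg
        apply ContinuousAt.div
        · fun_prop
        · fun_prop
        · simp
      exact h1.smul continuousAt_const
    have := hc.tendsto
    simp only [sub_zero, zero_div, neg_zero, zero_smul] at this
    exact this.mono_left nhdsWithin_le_nhds
  have h2 := hlim.eventually hx
  filter_upwards [h2] with ε hε
  have e : x + ((-(ε / (1 - ε))) • l : perpK u) = x - (ε / (1 - ε)) • (w - ∑ i, ⟪u i, w⟫ • u i) := by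
    rw [Submodule.coe_smul, neg_smul, ← sub_eq_add_neg]
  rwa [e] at hε

theorem combo_eqK (x w : E) (ε : ℝ) (hε : 1 - ε ≠ 0) :
    (1 - ε) • (x - (ε / (1 - ε)) • (w - ∑ i, ⟪u i, w⟫ • u i)) + ε • (x + w) =
      pt u x (fun i => ε * ⟪u i, w⟫) := by
  have h1 : (1 - ε) * (ε / (1 - ε)) = ε := by field_simp
  have h2 : ∑ i, (ε * ⟪u i, w⟫) • u i = ε • ∑ i, ⟪u i, w⟫ • u i := by
    rw [Finset.smul_sum]
    exact Finset.sum_congr rfl fun i _ => by rw [smul_smul]
  unfold pt
  rw [h2, smul_sub, smul_smul, h1]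
  module

theorem eventually_lt_oneK : ∀ᶠ ε : ℝ in 𝓝[>] 0, ε < 1 := by
  have : ∀ᶠ ε : ℝ in 𝓝 0, ε < 1 := gt_mem_nhds (by norm_num)
  exact this.filter_mono nhdsWithin_le_nhds

theorem mem_slice_smallK (hu : Orthonormal ℝ u) {T : Set E} (hT : Convex ℝ T) {x : E}
    (hx : GenS (perpK u) T x) {y : E} (hy : y ∈ T) :
    ∀ᶠ ε : ℝ in 𝓝[>] 0, (fun i => ε * ⟪u i, y - x⟫) ∈ sliceK u T x := by
  filter_upwards [small_scaleK hu hx (y - x), eventually_lt_oneK, self_mem_nhdsWithin] with ε h1 h2 h3
  replace h3 : 0 < ε := h3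
  have h4 : 1 - ε ≠ 0 := by linarith
  have := hT h1 hy (a := 1 - ε) (b := ε) (by linarith) h3.le (by ring)
  have e := combo_eqK (u := u) x (y - x) ε h4
  rw [add_sub_cancel] at e
  rw [e] at this
  exact this

theorem interior_slice_smallK (hu : Orthonormal ℝ u) {T : Set E} (hT : Convex ℝ T) {x : E}
    (hx : GenS (perpK u) T x) {y : E} (hy : y ∈ interior T) :
    ∀ᶠ ε : ℝ in 𝓝[>] 0, pt u x (fun i => ε * ⟪u i, y - x⟫) ∈ interior T := by
  filter_upwards [small_scaleK hu hx (y - x), eventually_lt_oneK, self_mem_nhdsWithin] with ε h1 h2 h3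
  replace h3 : 0 < ε := h3
  have h4 : 1 - ε ≠ 0 := by linarith
  have := hT.combo_self_interior_mem_interior h1 hy (a := 1 - ε) (b := ε) (by linarith) h3 (by ring)
  have e := combo_eqK (u := u) x (y - x) ε h4
  rw [add_sub_cancel] at e
  rwa [e] at this

theorem exists_slice_interiorK (hu : Orthonormal ℝ u) {T : Set E} (hT : Convex ℝ T)
    (hint : (interior T).Nonempty) {x : E} (hx : GenS (perpK u) T x) :
    ∃ q : Fin k → ℝ, pt u x q ∈ interior T := by
  obtain ⟨y, hy⟩ := hint
  obtain ⟨ε, hε⟩ := (interior_slice_smallK hu hT hx hy).exists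
  exact ⟨_, hε⟩

theorem slice_of_interiorK {T : Set E} {x : E} {q : Fin k → ℝ} (h : pt u x q ∈ interior T) :
    q ∈ interior (sliceK u T x) := by
  rw [mem_interior]
  exact ⟨pt u x ⁻¹' interior T, fun p hp => interior_subset (s := T) hp,
    isOpen_interior.preimage (pt_cont u x), h⟩

theorem slice_denseK (hu : Orthonormal ℝ u) {T : Set E} (hT : Convex ℝ T) (hint : (interior T).Nonempty)
    {x : E} (hx : GenS (perpK u) T x) {U : Set (Fin k → ℝ)} (hU : IsOpen U) (hne : U.Nonempty)
    (hUs : U ⊆ sliceK u T x) : ∃ p ∈ U, pt u x p ∈ interior T := by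
  obtain ⟨q, hq⟩ := exists_slice_interiorK hu hT hint hx
  obtain ⟨p, hp⟩ := hne
  have hc : ContinuousAt (fun t : ℝ => (1 - t) • p + t • q) 0 := by
    apply Continuous.continuousAt; fun_prop
  have h1 : ∀ᶠ t : ℝ in 𝓝 0, (1 - t) • p + t • q ∈ U := by
    apply hc.eventually_mem
    simpa using hU.mem_nhds hp
  obtain ⟨t, h1, h2, h3⟩ := ((h1.filter_mono (nhdsWithin_le_nhds (s := Ioi (0 : ℝ)))).and
    (eventually_lt_oneK.and self_mem_nhdsWithin)).exists
  replace h3 : 0 < t := h3
  refine ⟨_, h1, ?_⟩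
  have := hT.combo_self_interior_mem_interior (hUs hp) hq (a := 1 - t) (b := t) (by linarith) h3 (by ring)
  have e := pt_combo u x p q (a := 1 - t) (b := t) (by ring)
  rw [← e]
  exact this

theorem slice_disjointK (hu : Orthonormal ℝ u) {T T' : Set E} (hT : Convex ℝ T) (hint : (interior T).Nonempty)
    (hT' : Convex ℝ T') (hint' : (interior T').Nonempty) {x : E} (hx : GenS (perpK u) T x)
    (hx' : GenS (perpK u) T' x) (hd : Disjoint (interior T) (interior T')) :
    Disjoint (interior (sliceK u T x)) (interior (sliceK u T' x)) := by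
  rw [Set.disjoint_iff_inter_eq_empty]
  by_contra hne
  rw [← Ne, ← Set.nonempty_iff_ne_empty] at hne
  obtain ⟨p, hp, hpT⟩ := slice_denseK hu hT hint hx (isOpen_interior.inter isOpen_interior) hne
    (fun q hq => interior_subset hq.1)
  have hopen : IsOpen ((interior (sliceK u T x) ∩ interior (sliceK u T' x)) ∩ pt u x ⁻¹' interior T) :=
    (isOpen_interior.inter isOpen_interior).inter (isOpen_interior.preimage (pt_cont u x))
  obtain ⟨q, hq, hqT'⟩ := slice_denseK hu hT' hint' hx' hopen ⟨p, hp, hpT⟩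
    (fun q hq => interior_subset hq.1.2)
  exact Set.disjoint_left.1 hd hq.2 hqT'

theorem iface_iff_lex (hu : Orthonormal ℝ u) {T : Set E} (hT : Convex ℝ T) {x : E}
    (hx : GenS (perpK u) T x) (s : Fin k → ℤˣ) :
    x ∈ iface k T (sdir u s) ↔ LexK k s (sliceK u T x) := by
  rw [mem_iface]
  have hdir : ∀ z : E, (fun i => ⟪sdir u s i, z⟫) = fun i => sg (s i) * ⟪u i, z⟫ := by
    intro z
    funext i
    unfold sdir
    rw [real_inner_smul_left]
  constructor
  · rintro ⟨-, h⟩ y hy
    have h1 := h _ hy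
    rw [add_sub_cancel_left, hdir] at h1
    have h2 : (fun i => sg (s i) * ⟪u i, ∑ j, y j • u j⟫) = fun i => sg (s i) * y i := by
      funext i
      rw [hu.inner_right_fintype]
    rwa [h2] at h1
  · intro h
    refine ⟨hx.mem, fun y hy => ?_⟩
    obtain ⟨ε, hε, hε0⟩ := ((mem_slice_smallK hu hT hx hy).and self_mem_nhdsWithin).exists
    replace hε0 : 0 < ε := hε0
    have h1 := h _ hε
    rw [hdir, ← lexLE_smul hε0]
    have h2 : (fun i => sg (s i) * (ε * ⟪u i, y - x⟫)) = fun i => ε * (sg (s i) * ⟪u i, y - x⟫) := by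
      funext i
      ring
    rwa [h2] at h1

open Classical in
theorem localTilingK (hu : Orthonormal ℝ u) {ι : Type*} {T : ι → Set E}
    (hconv : ∀ i, Convex ℝ (T i)) (hcl : ∀ i, IsClosed (T i)) (hint : ∀ i, (interior (T i)).Nonempty)
    (hdis : ∀ i j, i ≠ j → Disjoint (interior (T i)) (interior (T j))) {I : Finset ι} {x : E}
    (hcov : (⋃ i ∈ I, T i) ∈ 𝓝 x) (hgen : ∀ i ∈ I, x ∈ T i → GenS (perpK u) (T i) x) :
    LocT (I.filter fun i => x ∈ T i) (fun i => sliceK u (T i) x) where
  conv i hi := sliceK_convex (hconv i) x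
  closed i hi := sliceK_closed (hcl i) x
  zero i hi := by
    simp only [Finset.mem_filter] at hi
    rw [mem_sliceK]
    unfold pt
    simpa using hi.2
  int_ne i hi := by
    simp only [Finset.mem_filter] at hi
    obtain ⟨q, hq⟩ := exists_slice_interiorK hu (hconv i) (hint i) (hgen i hi.1 hi.2)
    exact ⟨q, slice_of_interiorK hq⟩
  disj i hi j hj hij := by
    simp only [Finset.mem_filter] at hi hj
    exact slice_disjointK hu (hconv i) (hint i) (hconv j) (hint j) (hgen i hi.1 hi.2)
      (hgen j hj.1 hj.2) (hdis i j hij)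
  cover := by
    have h1 : ∀ᶠ y in 𝓝 x, ∀ i ∈ I, x ∉ T i → y ∉ T i := by
      rw [Finset.eventually_all]
      intro i _
      by_cases hx : x ∈ T i
      · exact Eventually.of_forall fun y h => absurd hx h
      · filter_upwards [(hcl i).isOpen_compl.mem_nhds hx] with y hy _ using hy
    have h2 : ∀ᶠ y in 𝓝 x, ∃ i ∈ I.filter (fun i => x ∈ T i), y ∈ T i := by
      filter_upwards [h1, hcov] with y hy1 hy2
      simp only [mem_iUnion, exists_prop] at hy2
      obtain ⟨i, hi, hyi⟩ := hy2
      refine ⟨i, Finset.mem_filter.2 ⟨hi, ?_⟩, hyi⟩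
      by_contra hc
      exact hy1 i hi hc hyi
    have h3 := (pt_cont u x).tendsto 0
    have e0 : pt u x 0 = x := by unfold pt; simp
    rw [e0] at h3
    have h4 := h3.eventually h2
    filter_upwards [h4] with p hp
    obtain ⟨i, hi, hpi⟩ := hp
    exact mem_biUnion hi hpi

end Pool.EH56
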