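import Pool.Agent.EH56.Loc
import Pool.Agent.EH56.SliceK
import Pool.Agent.EH56.Fam

set_option autoImplicit false
set_option linter.unusedSectionVars false

/-!
# EH56/Main: all Hadwiger invariants of even codimension vanish
-/

namespace Pool.EH56

open Set Filter Topology MeasureTheory Module Metric
open scoped RealInnerProductSpace ENNReal
open Pool.Agent.H14Belt (BoundedTiling mot)

variable {E : Type*} [NormedAddCommGroup E] [InnerProductSpace ℝ E] [FiniteDimensional ℝ E]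
  [MeasurableSpace E] [BorelSpace E]

theorem sum_sub {k : ℕ} {M : Type*} [AddCommMonoid M] (ε : ℤˣ) (f : (Fin k → ℤˣ) → M) :
    ∑ s : {s : Fin k → ℤˣ // ∏ i, s i = ε}, f s = ∑ s : Fin k → ℤˣ, if ∏ i, s i = ε then f s else 0 := by
  rw [← Finset.sum_filter]
  exact (Finset.sum_subtype (Finset.univ.filter fun s : Fin k → ℤˣ => ∏ i, s i = ε) (by simp) f).symm

theorem sum_eq_of_signed {k : ℕ} (c : (Fin k → ℤˣ) → ℕ)
    (h : ∑ s : Fin k → ℤˣ, ((∏ i, s i : ℤˣ) : ℤ) * (c s : ℤ) = 0) :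
    ∑ s : {s : Fin k → ℤˣ // ∏ i, s i = 1}, c s = ∑ s : {s : Fin k → ℤˣ // ∏ i, s i = -1}, c s := by
  rw [sum_sub 1 c, sum_sub (-1) c]
  have h1 : (∑ s : Fin k → ℤˣ, (if ∏ i, s i = 1 then (c s : ℤ) else 0)) -
      ∑ s : Fin k → ℤˣ, (if ∏ i, s i = -1 then (c s : ℤ) else 0) = 0 := by
    rw [← Finset.sum_sub_distrib]
    refine Eq.trans (Finset.sum_congr rfl fun s _ => ?_) h
    rcases Int.units_eq_one_or (∏ i, s i) with h2 | h2
    · rw [h2, if_pos rfl, if_neg (by decide)]; simp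
    · rw [h2, if_neg (by decide), if_pos rfl]; simp
  zify
  have h2 := sub_eq_zero.mp h1
  simpa using h2

open Classical in
theorem pointwise {k : ℕ} (hk : k ≠ 0) {u : Fin k → E} (hu : Orthonormal ℝ u) {ι : Type*} {T : ι → Set E}
    (hconv : ∀ i, Convex ℝ (T i)) (hcl : ∀ i, IsClosed (T i)) (hint : ∀ i, (interior (T i)).Nonempty)
    (hdis : ∀ i j, i ≠ j → Disjoint (interior (T i)) (interior (T j))) {I : Finset ι} {x : E}
    (hcov : (⋃ i ∈ I, T i) ∈ 𝓝 x) (hgen : ∀ i ∈ I, x ∈ T i → GenS (perpK u) (T i) x) :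
    ∑ s : {s : Fin k → ℤˣ // ∏ i, s i = 1}, (I.filter fun i => x ∈ iface k (T i) (sdir u s)).card =
      ∑ s : {s : Fin k → ℤˣ // ∏ i, s i = -1}, (I.filter fun i => x ∈ iface k (T i) (sdir u s)).card := by
  apply sum_eq_of_signed (fun s => (I.filter fun i => x ∈ iface k (T i) (sdir u s)).card)
  have hloc := localTilingK hu hconv hcl hint hdis hcov hgen
  have hsum := sum_lam k hloc
  rw [if_neg hk] at hsum
  rw [← hsum]
  have h1 : ∀ i ∈ I.filter (fun i => x ∈ T i), lam k (sliceK u (T i) x) =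
      ∑ s : Fin k → ℤˣ, ((∏ i, s i : ℤˣ) : ℤ) * (if LexK k s (sliceK u (T i) x) then 1 else 0) :=
    fun i _ => lam_eq k _
  rw [Finset.sum_congr rfl h1, Finset.sum_comm]
  refine Finset.sum_congr rfl fun s _ => ?_
  rw [← Finset.mul_sum]
  congr 1
  have h2 : (I.filter fun i => x ∈ iface k (T i) (sdir u s)) =
      (I.filter fun i => x ∈ T i).filter fun i => LexK k s (sliceK u (T i) x) := by
    rw [Finset.filter_filter]
    apply Finset.filter_congr
    intro i hi
    constructor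
    · intro h
      have hx := iface_subset _ _ _ h
      exact ⟨hx, (iface_iff_lex hu (hconv i) (hgen i hi hx) s).1 h⟩
    · rintro ⟨hx, h⟩
      exact (iface_iff_lex hu (hconv i) (hgen i hi hx) s).2 h
  rw [h2, Finset.card_filter]
  push_cast
  rfl

/-- The iterated face if the product of the signs is `ε`, and the empty set otherwise. -/
noncomputable def Fp {k : ℕ} (u : Fin k → E) (ε : ℤˣ) (s : Fin k → ℤˣ) (T : Set E) : Set E :=
  if ∏ i, s i = ε then iface k T (sdir u s) else ∅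

theorem Fp_pos {k : ℕ} (u : Fin k → E) {ε : ℤˣ} {s : Fin k → ℤˣ} (h : ∏ i, s i = ε) (T : Set E) :
    Fp u ε s T = iface k T (sdir u s) := if_pos h

theorem Fp_neg {k : ℕ} (u : Fin k → E) {ε : ℤˣ} {s : Fin k → ℤˣ} (h : ¬ ∏ i, s i = ε) (T : Set E) :
    Fp u ε s T = ∅ := if_neg h

theorem sum_mu_Fp {k : ℕ} (u : Fin k → E) (ε : ℤˣ) (μ : Measure E) (T : Set E) :
    ∑ s : Fin k → ℤˣ, μ (Fp u ε s T) = ∑ s : {s : Fin k → ℤˣ // ∏ i, s i = ε}, μ (iface k T (sdir u s)) := by
  rw [sum_sub ε (fun s => μ (iface k T (sdir u s)))]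
  refine Finset.sum_congr rfl fun s _ => ?_
  by_cases h : ∏ i, s i = ε
  · rw [if_pos h, Fp_pos u h]
  · rw [if_neg h, Fp_neg u h, measure_empty]

open Classical in
theorem sum_card_Fp {k : ℕ} (u : Fin k → E) (ε : ℤˣ) {ι : Type*} (T : ι → Set E) (I : Finset ι) (x : E) :
    ∑ s : Fin k → ℤˣ, (I.filter fun i => x ∈ Fp u ε s (T i)).card =
      ∑ s : {s : Fin k → ℤˣ // ∏ i, s i = ε}, (I.filter fun i => x ∈ iface k (T i) (sdir u s)).card := by
  rw [sum_sub ε (fun s => (I.filter fun i => x ∈ iface k (T i) (sdir u s)).card)]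
  refine Finset.sum_congr rfl fun s _ => ?_
  by_cases h : ∏ i, s i = ε
  · rw [if_pos h]
    simp only [Fp_pos u h]
  · rw [if_neg h]
    simp only [Fp_neg u h, mem_empty_iff_false, Finset.filter_false, Finset.card_empty]

/-- The measures of the faces of a motion of `P`. -/
theorem sum_mot {k : ℕ} (hk : Even k) (u : Fin k → E) (ε : ℤˣ) (P : Set E) (t : E) {σ : ℝ}
    (hσ : σ = 1 ∨ σ = -1) {d : ℝ} (hd : 0 ≤ d) :
    ∑ s : Fin k → ℤˣ, (Measure.hausdorffMeasure d : Measure E) (Fp u ε s (mot t σ '' P)) =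
      ∑ s : Fin k → ℤˣ, (Measure.hausdorffMeasure d : Measure E) (Fp u ε s P) := by
  have h0 : ∀ s : Fin k → ℤˣ, (Measure.hausdorffMeasure d : Measure E) (iface k (mot t σ '' P) (sdir u s)) =
      (Measure.hausdorffMeasure d : Measure E) (iface k P (fun i => σ • sdir u s i)) := by
    intro s
    rw [iface_mot, Pool.Agent.H14Belt.hausdorff_mot t hσ hd]
  rcases hσ with rfl | rfl
  · refine Finset.sum_congr rfl fun s _ => ?_
    by_cases h : ∏ i, s i = ε
    · rw [Fp_pos u h, Fp_pos u h, h0]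
      congr 2
      funext i
      rw [one_smul]
    · rw [Fp_neg u h, Fp_neg u h]
  · rw [← Equiv.sum_comp (Equiv.neg (Fin k → ℤˣ))]
    refine Finset.sum_congr rfl fun s _ => ?_
    have hp : ∏ i, (-s) i = ∏ i, s i := by
      have : ∀ i, (-s) i = -1 * s i := fun i => by rw [Pi.neg_apply, neg_one_mul]
      rw [Finset.prod_congr rfl fun i _ => this i, Finset.prod_mul_distrib, Finset.prod_const,
        Finset.card_univ, Fintype.card_fin, hk.neg_one_pow, one_mul]
    rw [Equiv.neg_apply]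
    by_cases h : ∏ i, s i = ε
    · rw [Fp_pos u (hp.trans h), Fp_pos u h, h0]
      congr 2
      funext i
      simp only [sdir, Pi.neg_apply, sg_neg, neg_smul, one_smul, neg_neg]
    · rw [Fp_neg u (by rw [hp]; exact h), Fp_neg u h]

theorem Fp_closed {k : ℕ} (u : Fin k → E) (ε : ℤˣ) (s : Fin k → ℤˣ) {T : Set E} (hT : IsClosed T) :
    IsClosed (Fp u ε s T) := by
  by_cases h : ∏ i, s i = ε
  · rw [Fp_pos u h]; exact iface_closed k hT _
  · rw [Fp_neg u h]; exact isClosed_empty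

theorem Fp_sub {k : ℕ} (u : Fin k → E) (ε : ℤˣ) (s : Fin k → ℤˣ) (T : Set E) :
    Fp u ε s T ⊆ iface k T (sdir u s) := by
  by_cases h : ∏ i, s i = ε
  · rw [Fp_pos u h]
  · rw [Fp_neg u h]; exact empty_subset _

/-- One half of the law. -/
theorem law_le {k : ℕ} (hk : Even k) {u : Fin k → E} {P : Set E} (hc : IsCompact P)
    (hconv : Convex ℝ P) (hint : (interior P).Nonempty)
    {ι : Type*} {T : ι → Set E} (hT : ∀ i, ∃ t s, (s = 1 ∨ s = -1) ∧ T i = mot t s '' P)
    (hdis : ∀ i j, i ≠ j → Disjoint (interior (T i)) (interior (T j))) (hcov : (⋃ i, T i) = univ)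
    (ε ε' : ℤˣ)
    (hpt : ∀ (I : Finset ι) (x : E), (⋃ i ∈ I, T i) ∈ 𝓝 x →
      (∀ i ∈ I, x ∈ T i → GenS (perpK u) (T i) x) → open Classical in
      ∑ s : {s : Fin k → ℤˣ // ∏ i, s i = ε}, (I.filter fun i => x ∈ iface k (T i) (sdir u s)).card =
      ∑ s : {s : Fin k → ℤˣ // ∏ i, s i = ε'}, (I.filter fun i => x ∈ iface k (T i) (sdir u s)).card) :
    ∑ s : {s : Fin k → ℤˣ // ∏ i, s i = ε},
        (Measure.hausdorffMeasure (finrank ℝ (perpK u) : ℝ) : Measure E) (iface k P (sdir u s)) ≤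
      ∑ s : {s : Fin k → ℤˣ // ∏ i, s i = ε'},
        (Measure.hausdorffMeasure (finrank ℝ (perpK u) : ℝ) : Measure E) (iface k P (sdir u s)) := by
  have hB := Pool.Agent.H14Belt.boundedTiling hc hconv hint hT hdis hcov
  rw [← sum_mu_Fp, ← sum_mu_Fp]
  refine main_fam (S := perpK u) hB (J := Fin k → ℤˣ) (F := fun s i => Fp u ε s (T i))
    (F' := fun s i => Fp u ε' s (T i)) (fun s i => (Fp_sub u ε s _).trans (iface_subset _ _ _))
    (fun s i => (Fp_closed u ε s (hB.closed i)).measurableSet)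
    (fun s i => (Fp_closed u ε' s (hB.closed i)).measurableSet) (fun i => ?_) _ _ (fun i => ?_)
    (fun i => ?_) (fun I x h1 h2 => ?_)
  · classical
    choose x₀ hx₀ using fun s : Fin k → ℤˣ => iface_flat (T i) u s
    refine ⟨Finset.univ.image x₀, ?_⟩
    rintro x (hx | hx)
    · obtain ⟨s, hs⟩ := mem_iUnion.1 hx
      exact mem_biUnion (Finset.mem_coe.2 (Finset.mem_image_of_mem x₀ (Finset.mem_univ s)))
        (hx₀ s (Fp_sub u ε s _ hs))
    · obtain ⟨s, hs⟩ := mem_iUnion.1 hx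
      exact mem_biUnion (Finset.mem_coe.2 (Finset.mem_image_of_mem x₀ (Finset.mem_univ s)))
        (hx₀ s (Fp_sub u ε' s _ hs))
  · obtain ⟨t, σ, hσ, h⟩ := hT i
    simp only [h]
    exact sum_mot hk u ε P t hσ (by positivity)
  · obtain ⟨t, σ, hσ, h⟩ := hT i
    simp only [h]
    exact sum_mot hk u ε' P t hσ (by positivity)
  · rw [sum_card_Fp, sum_card_Fp]
    exact (hpt I x h1 h2).le

theorem even_law {k : ℕ} (hk : Even k) (hk0 : k ≠ 0) {u : Fin k → E} (hu : Orthonormal ℝ u)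
    {P : Set E} (hc : IsCompact P) (hconv : Convex ℝ P) (hint : (interior P).Nonempty)
    {ι : Type*} {T : ι → Set E} (hT : ∀ i, ∃ t s, (s = 1 ∨ s = -1) ∧ T i = mot t s '' P)
    (hdis : ∀ i j, i ≠ j → Disjoint (interior (T i)) (interior (T j))) (hcov : (⋃ i, T i) = univ) :
    ∑ s : {s : Fin k → ℤˣ // ∏ i, s i = 1},
        (Measure.hausdorffMeasure (finrank ℝ (perpK u) : ℝ) : Measure E) (iface k P (sdir u s)) =
      ∑ s : {s : Fin k → ℤˣ // ∏ i, s i = -1},
        (Measure.hausdorffMeasure (finrank ℝ (perpK u) : ℝ) : Measure E) (iface k P (sdir u s)) := by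
  have hB := Pool.Agent.H14Belt.boundedTiling hc hconv hint hT hdis hcov
  refine le_antisymm (law_le hk hc hconv hint hT hdis hcov 1 (-1) fun I x h1 h2 => ?_)
    (law_le hk hc hconv hint hT hdis hcov (-1) 1 fun I x h1 h2 => ?_)
  · exact pointwise hk0 hu hB.conv hB.closed hB.int_ne hdis h1 h2
  · exact (pointwise hk0 hu hB.conv hB.closed hB.int_ne hdis h1 h2).symm

end Pool.EH56
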