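import Pool.Agent.EH56.LamE

set_option autoImplicit false
set_option linter.unusedSectionVars false

/-!
# EH56/Sec: the sections of the tiles on one side of a hyperplane form a local tiling

`σ = 1` : tiles with points `y 0 < 0`; `σ = -1` : tiles with points `0 < y 0`.
`disj`: `cone_int` (EH56/LamE).  `cover`: points `Fin.cons (-σ t) z`, `t → 0+`, are frequently in one closed tile; the
sections with empty interior can be dropped (`interior_union_isClosed_of_interior_empty`).
-/

namespace Pool.EH56

open Set Filter Topology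

theorem interior_biUnion_empty {X : Type*} [TopologicalSpace X] {ι : Type*} (t : Finset ι) (C : ι → Set X)
    (hc : ∀ i ∈ t, IsClosed (C i)) (hi : ∀ i ∈ t, interior (C i) = ∅) : interior (⋃ i ∈ t, C i) = ∅ := by
  classical
  induction t using Finset.induction_on with
  | empty => simp
  | insert a t ha ih =>
    rw [Finset.set_biUnion_insert, interior_union_isClosed_of_interior_empty (hc a (Finset.mem_insert_self _ _))
      (ih (fun i h => hc i (Finset.mem_insert_of_mem h)) (fun i h => hi i (Finset.mem_insert_of_mem h)))]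
    exact hi a (Finset.mem_insert_self _ _)

open Classical in
theorem sec_loc {ι : Type*} {k : ℕ} {s : Finset ι} {K : ι → Set (Fin (k + 1) → ℝ)} (h : LocT s K)
    {σ : ℝ} (hσ : σ = 1 ∨ σ = -1) :
    LocT ((s.filter fun i => ∃ y ∈ K i, σ * y 0 < 0).filter fun i => (interior (sec (K i))).Nonempty)
      (fun i => sec (K i)) where
  conv i hi := sec_convex (h.conv i (Finset.mem_filter.mp (Finset.mem_filter.mp hi).1).1)
  closed i hi := sec_closed (h.closed i (Finset.mem_filter.mp (Finset.mem_filter.mp hi).1).1)
  zero i hi := sec_zero (h.zero i (Finset.mem_filter.mp (Finset.mem_filter.mp hi).1).1)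
  int_ne i hi := (Finset.mem_filter.mp hi).2
  disj i hi j hj hij := by
    obtain ⟨hi1, p, hp, hp0⟩ := Finset.mem_filter.mp (Finset.mem_filter.mp hi).1
    obtain ⟨hj1, q, hq, hq0⟩ := Finset.mem_filter.mp (Finset.mem_filter.mp hj).1
    rw [Set.disjoint_left]
    intro z hz1 hz2
    have h1 := cone_int (h.conv i hi1) hp (σ := -σ) (by linarith) hz1
    have h2 := cone_int (h.conv j hj1) hq (σ := -σ) (by linarith) hz2
    obtain ⟨ε, h3, h4⟩ := (h1.and h2).exists
    exact Set.disjoint_left.mp (h.disj i hi1 j hj1 hij) h3 h4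
  cover := by
    have hσ2 : σ * σ = 1 := by rcases hσ with rfl | rfl <;> norm_num
    set t := s.filter fun i => ∃ p ∈ K i, σ * p 0 < 0 with ht
    -- the union over `t` is a neighbourhood
    have h1 : ∀ᶠ z : Fin k → ℝ in 𝓝 0, (Fin.cons 0 z : Fin (k + 1) → ℝ) ∈ interior (⋃ i ∈ s, K i) := by
      have hc := (cons_cont' (k := k)).tendsto 0
      rw [cons_zero_zero] at hc
      exact hc.eventually (isOpen_interior.mem_nhds (mem_interior_iff_mem_nhds.mpr h.cover))
    have h2 : (⋃ i ∈ t, sec (K i)) ∈ 𝓝 (0 : Fin k → ℝ) := by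
      filter_upwards [h1] with z hz
      have hcz := cons_cont (k := k) (fun ε => ε * (-σ)) (by fun_prop) z
      have h3 : ∀ᶠ ε : ℝ in 𝓝[>] 0, ∃ i ∈ s, (Fin.cons (ε * (-σ)) z : Fin (k + 1) → ℝ) ∈ K i := by
        have h4 := hcz.tendsto 0
        simp only [zero_mul] at h4
        have h5 := (h4.eventually (isOpen_interior.mem_nhds hz)).filter_mono
          (nhdsWithin_le_nhds (s := Ioi (0 : ℝ)))
        filter_upwards [h5] with ε hε
        have := interior_subset hε
        simpa only [mem_iUnion, exists_prop] using this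
      have h4 : ∃ i ∈ s, ∃ᶠ ε : ℝ in 𝓝[>] 0, (Fin.cons (ε * (-σ)) z : Fin (k + 1) → ℝ) ∈ K i := by
        by_contra hcon
        push Not at hcon
        have h5 : ∀ᶠ ε : ℝ in 𝓝[>] 0, ∀ i ∈ s, (Fin.cons (ε * (-σ)) z : Fin (k + 1) → ℝ) ∉ K i := by
          rw [Finset.eventually_all]
          intro i hi
          exact hcon i hi
        obtain ⟨ε, ⟨i, hi, h6⟩, h7⟩ := (h3.and h5).exists
        exact h7 i hi h6
      obtain ⟨i, hi, hfr⟩ := h4
      have h5 : (Fin.cons 0 z : Fin (k + 1) → ℝ) ∈ K i := by
        have h6 := hcz.tendsto 0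
        simp only [zero_mul] at h6
        exact (h.closed i hi).mem_of_frequently_of_tendsto hfr (h6.mono_left nhdsWithin_le_nhds)
      obtain ⟨ε, h6, h7⟩ := (hfr.and_eventually self_mem_nhdsWithin).exists
      have h7' : 0 < ε := h7
      refine mem_biUnion (x := i) ?_ h5
      rw [ht, Finset.mem_coe, Finset.mem_filter]
      refine ⟨hi, _, h6, ?_⟩
      rw [Fin.cons_zero, show σ * (ε * (-σ)) = -(ε * (σ * σ)) by ring, hσ2, mul_one]
      linarith
    -- remove the sections without interior points
    have h3 : (⋃ i ∈ t, sec (K i)) =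
        (⋃ i ∈ t.filter (fun i => (interior (sec (K i))).Nonempty), sec (K i)) ∪
        (⋃ i ∈ t.filter (fun i => ¬ (interior (sec (K i))).Nonempty), sec (K i)) := by
      rw [← Finset.set_biUnion_union, Finset.filter_union_filter_not_eq]
    have hcl : ∀ i ∈ t, IsClosed (sec (K i)) := by
      intro i hi
      rw [ht, Finset.mem_filter] at hi
      exact sec_closed (h.closed i hi.1)
    have h4 := mem_interior_iff_mem_nhds.mpr h2
    rw [h3, interior_union_isClosed_of_interior_empty] at h4
    · exact mem_interior_iff_mem_nhds.mp h4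
    · exact (t.filter _).finite_toSet.isClosed_biUnion fun i hi => hcl i (Finset.mem_filter.mp hi).1
    · refine interior_biUnion_empty _ _ (fun i hi => hcl i (Finset.mem_filter.mp hi).1) (fun i hi => ?_)
      exact not_nonempty_iff_eq_empty.mp (Finset.mem_filter.mp hi).2

end Pool.EH56
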